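import Pool.Agent.H459Z.TD.Cut

/-! The single cut lemma, by separating two polytopes. -/

set_option autoImplicit false

namespace Pool.Agent.H459Z

open Finset

variable {V : Type}

/-- The bilinear form with kernel `N`. -/
noncomputable def Bf [Fintype V] (N : V → V → ℝ) (f g : V → ℝ) : ℝ :=
  ∑ u, ∑ v, f u * g v * N u v

theorem sum_comm3 {α β γ : Type} [Fintype α] [Fintype β] [Fintype γ] (F : α → β → γ → ℝ) :
    ∑ v, ∑ i, ∑ j, F v i j = ∑ i, ∑ j, ∑ v, F v i j := by
  rw [sum_comm]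
  exact sum_congr rfl (fun i _ => sum_comm)

theorem Bf_sum [Fintype V] {ι : Type} [Fintype ι] (N : V → V → ℝ) (w : ι → ℝ) (z : ι → V → ℝ) :
    Bf N (∑ i, w i • z i) (∑ i, w i • z i) = ∑ i, ∑ j, w i * w j * Bf N (z i) (z j) := by
  unfold Bf
  have h1 : ∀ u v, (∑ i, w i • z i) u * (∑ i, w i • z i) v * N u v =
      ∑ i, ∑ j, w i * w j * (z i u * z j v * N u v) := by
    intro u v
    simp only [Finset.sum_apply, Pi.smul_apply, smul_eq_mul]
    rw [sum_mul_sum, sum_mul]
    refine sum_congr rfl (fun i _ => ?_)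
    rw [sum_mul]
    exact sum_congr rfl (fun j _ => by ring)
  simp only [h1]
  have h2 : ∀ u, ∑ v, ∑ i, ∑ j, w i * w j * (z i u * z j v * N u v) =
      ∑ i, ∑ j, ∑ v, w i * w j * (z i u * z j v * N u v) := fun u => sum_comm3 _
  simp only [h2]
  rw [sum_comm3 (fun u i j => ∑ v, w i * w j * (z i u * z j v * N u v))]
  simp only [mul_sum]

open Classical in
/-- The indicator function of a finite set. -/
noncomputable def ind (S : Finset V) : V → ℝ := fun v => if v ∈ S then 1 else 0

open Classical in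
/-- The kernel recording equality or adjacency. -/
noncomputable def near (G : SimpleGraph V) (u v : V) : ℝ := if u = v ∨ G.Adj u v then 1 else 0

theorem near_nonneg (G : SimpleGraph V) (u v : V) : 0 ≤ near G u v := by
  unfold near; split_ifs <;> norm_num

theorem ind_nonneg (S : Finset V) (v : V) : 0 ≤ ind S v := by
  unfold ind; split_ifs <;> norm_num

theorem Bf_ind [Fintype V] (N : V → V → ℝ) (S S' : Finset V) :
    Bf N (ind S) (ind S') = ∑ u ∈ S, ∑ v ∈ S', N u v := by
  classical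
  unfold Bf ind
  rw [← sum_subset (subset_univ S) (fun u _ hu => by simp [hu])]
  refine sum_congr rfl (fun u hu => ?_)
  rw [← sum_subset (subset_univ S') (fun v _ hv => by simp [hv])]
  refine sum_congr rfl (fun v hv => ?_)
  simp [hu, hv]

theorem sum_ind [Fintype V] (S : Finset V) : ∑ v, ind S v = S.card := by
  classical
  unfold ind
  rw [← sum_subset (subset_univ S) (fun u _ hu => by simp [hu])]
  rw [sum_congr rfl (g := fun _ => (1 : ℝ)) (fun u hu => by simp [hu])]
  simp

open Classical in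
theorem Bf_upper [Fintype V] (G : SimpleGraph V) {T r : ℕ} (hr : 1 ≤ r) {S S' : Finset V}
    (h : NoBic G T S S') : Bf (near G) (ind S) (ind S') ≤ (S.card : ℝ) * S'.card / r +
      ((T * (2 * r) ^ T + 2 * r * T + 1 : ℕ) : ℝ) * (S.card + S'.card) := by
  rw [Bf_ind]
  have hk := kst G hr h
  have hr' : (0 : ℝ) < r := by exact_mod_cast hr
  have h1 : ∀ u ∈ S, ∑ v ∈ S', near G u v ≤ 1 + ((S'.filter (G.Adj u)).card : ℝ) := by
    intro u _
    have : ∑ v ∈ S', near G u v ≤
        ∑ v ∈ S', ((if u = v then (1 : ℝ) else 0) + if G.Adj u v then 1 else 0) := by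
      refine sum_le_sum (fun v _ => ?_)
      unfold near
      by_cases e1 : u = v <;> by_cases e2 : G.Adj u v <;> simp [e1, e2]
    rw [sum_add_distrib, sum_ite_eq, sum_boole] at this
    split_ifs at this <;> linarith
  have h2 := sum_le_sum h1
  rw [sum_add_distrib, sum_const, nsmul_eq_mul, mul_one] at h2
  have h3 : (r : ℝ) * ∑ u ∈ S, ((S'.filter (G.Adj u)).card : ℝ) ≤ (S.card : ℝ) * S'.card +
      r * ((T * (2 * r) ^ T + 2 * r * T : ℕ) : ℝ) * (S.card + S'.card) := by exact_mod_cast hk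
  have h4 : ∑ u ∈ S, ((S'.filter (G.Adj u)).card : ℝ) ≤ (S.card : ℝ) * S'.card / r +
      ((T * (2 * r) ^ T + 2 * r * T : ℕ) : ℝ) * (S.card + S'.card) := by
    rw [div_add' _ _ _ hr'.ne', le_div_iff₀ hr']
    linarith
  rw [Nat.cast_add _ 1, Nat.cast_one]
  have : (0 : ℝ) ≤ S'.card := Nat.cast_nonneg _
  linarith

/-- Every good set inside `X` has at most `d` elements. -/
def Mu (𝒢 : Finset V → Prop) (X : Set V) (d : ℕ) : Prop := ∀ S, 𝒢 S → ↑S ⊆ X → S.card ≤ d

/-- `X` contains an end of every edge from `A` to its complement. -/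
def Cov (G : SimpleGraph V) (A X : Set V) : Prop :=
  ∀ a ∈ A, ∀ b, b ∉ A → G.Adj a b → a ∈ X ∨ b ∈ X

theorem cut_cover (s T : ℕ) : ∃ d : ℕ, ∀ (V : Type) [Fintype V] (G : SimpleGraph V)
    (𝒢 : Finset V → Prop), 𝒢 ∅ → (∀ S S', 𝒢 S → 𝒢 S' → NoBic G T S S') →
    ∀ A : Set V, Sim G s A → ∃ X, Cov G A X ∧ Mu 𝒢 X d := by
  classical
  set k := s + 1 with hk
  set r := 32 * k with hr
  set C := T * (2 * r) ^ T + 2 * r * T + 1 with hC
  set M := 32 * k * C with hM
  have hCpos : 0 < C := by omega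
  have hMpos : 0 < M := Nat.mul_pos (by omega) hCpos
  refine ⟨2 * M, fun V _ G 𝒢 h0 hB A hA => ?_⟩
  let P : Set (V → ℝ) := {p | ∃ S, 𝒢 S ∧ p = ind S}
  let Q : Set (V → ℝ) := {p | ∃ a b, a ∈ A ∧ b ∉ A ∧ G.Adj a b ∧ p = (M : ℝ) • ind {a, b}}
  have hP : P.Finite := (Set.finite_range (fun S : Finset V => ind S)).subset
    (by rintro _ ⟨S, _, rfl⟩; exact ⟨S, rfl⟩)
  have hQ : Q.Finite := (Set.finite_range (fun S : Finset V => (M : ℝ) • ind S)).subset
    (by rintro _ ⟨a, b, _, _, _, rfl⟩; exact ⟨_, rfl⟩)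
  have hM' : (0 : ℝ) < M := by exact_mod_cast hMpos
  by_cases hdisj : Disjoint (convexHull ℝ P) (convexHull ℝ Q)
  · obtain ⟨f, u, v, f1, huv, f2⟩ := geometric_hahn_banach_compact_closed
      (convex_convexHull ℝ P) (hP.isCompact_convexHull ℝ) (convex_convexHull ℝ Q)
      (hQ.isCompact_convexHull ℝ).isClosed hdisj
    have hf : ∀ S : Finset V, f (ind S) = ∑ x ∈ S, f (Pi.single x 1) := by
      intro S
      rw [← map_sum]
      congr 1
      funext y
      simp [ind, Finset.sum_apply, Pi.single_apply]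
    have f1' : ∀ S, 𝒢 S → ∑ x ∈ S, f (Pi.single x 1) < u := fun S hS => by
      rw [← hf]; exact f1 _ (subset_convexHull ℝ P ⟨S, hS, rfl⟩)
    have hu : 0 < u := by simpa using f1' ∅ h0
    refine ⟨{x | u / (2 * M) < f (Pi.single x 1)}, ?_, ?_⟩
    · intro a ha b hb hab
      have := f2 _ (subset_convexHull ℝ Q ⟨a, b, ha, hb, hab, rfl⟩)
      rw [map_smul, hf, sum_pair hab.ne, smul_eq_mul] at this
      by_contra hn
      simp only [Set.mem_ofPred_eq, not_or, not_lt] at hn
      have h1 : (M : ℝ) * (u / (2 * M)) = u / 2 := by field_simp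
      nlinarith [hn.1, hn.2]
    · intro S hS hSX
      have h1 := f1' S hS
      have h2 : ∑ _x ∈ S, u / (2 * M) ≤ ∑ x ∈ S, f (Pi.single x 1) :=
        sum_le_sum (fun x hx => le_of_lt (hSX hx))
      rw [sum_const, nsmul_eq_mul] at h2
      have h3 : (S.card : ℝ) * (u / (2 * M)) < u := lt_of_le_of_lt h2 h1
      rw [← mul_div_assoc, div_lt_iff₀ (by positivity)] at h3
      have h4 : (S.card : ℝ) < 2 * M := by nlinarith
      exact_mod_cast h4.le
  exfalso
  obtain ⟨p, hp1, hp2⟩ := Set.not_disjoint_iff.mp hdisj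
  obtain ⟨ι, _, w, z, hw0, hw1, hz, hp⟩ := mem_convexHull_iff_exists_fintype.mp hp1
  obtain ⟨κ, _, y, z', hy0, hy1, hz', hp'⟩ := mem_convexHull_iff_exists_fintype.mp hp2
  choose S hS hzS using hz
  choose a b ha hb hab hz'e using hz'
  have hsum : ∑ i, w i * ((S i).card : ℝ) = 2 * M := by
    have e1 : ∑ v, p v = ∑ i, w i * ((S i).card : ℝ) := by
      rw [← hp]
      simp only [Finset.sum_apply, Pi.smul_apply, smul_eq_mul]
      rw [sum_comm]
      refine sum_congr rfl (fun i _ => ?_)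
      rw [← mul_sum, hzS, sum_ind]
    have e2 : ∑ v, p v = ∑ e, y e * (2 * M) := by
      rw [← hp']
      simp only [Finset.sum_apply, Pi.smul_apply, smul_eq_mul]
      rw [sum_comm]
      refine sum_congr rfl (fun e _ => ?_)
      rw [← mul_sum, hz'e]
      simp only [Pi.smul_apply, smul_eq_mul]
      rw [← mul_sum, sum_ind, card_pair (hab e).ne]
      push_cast; ring
    rw [← e1, e2, ← sum_mul, hy1, one_mul]
  have hup : Bf (near G) p p ≤ (2 * M) * (2 * M) / r + (C : ℝ) * (4 * M) := by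
    rw [← hp, Bf_sum]
    have h1 : ∑ i, ∑ j, w i * w j * Bf (near G) (z i) (z j) ≤ ∑ i, ∑ j,
        ((w i * (S i).card) * (w j * (S j).card) / r +
          ((C : ℝ) * (w i * (S i).card) * w j + (C : ℝ) * w i * (w j * (S j).card))) := by
      refine sum_le_sum (fun i _ => sum_le_sum (fun j _ => ?_))
      rw [hzS, hzS]
      have := mul_le_mul_of_nonneg_left (Bf_upper G (r := r) (by omega) (hB _ _ (hS i) (hS j)))
        (mul_nonneg (hw0 i) (hw0 j))
      refine le_trans this (le_of_eq ?_)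
      rw [← hC]; ring
    refine le_trans h1 (le_of_eq ?_)
    simp only [sum_add_distrib, ← sum_div, ← mul_sum, ← sum_mul, hsum, hw1]
    ring
  let bad : κ → κ → Prop := fun e e' => ∃ u ∈ ({a e, b e} : Finset V),
    ∃ v ∈ ({a e', b e'} : Finset V), u = v ∨ G.Adj u v
  have hlow : (M : ℝ) * M * ∑ e, ∑ e', y e * y e' * (if bad e e' then 1 else 0) ≤
      Bf (near G) p p := by
    rw [← hp', Bf_sum, mul_sum]
    refine sum_le_sum (fun e _ => ?_)
    rw [mul_sum]
    refine sum_le_sum (fun e' _ => ?_)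
    have h1 : Bf (near G) (z' e) (z' e') =
        (M : ℝ) * M * Bf (near G) (ind {a e, b e}) (ind {a e', b e'}) := by
      rw [hz'e, hz'e]
      unfold Bf
      simp only [Pi.smul_apply, smul_eq_mul, mul_sum]
      exact sum_congr rfl (fun u _ => sum_congr rfl (fun v _ => by ring))
    have h2 : (if bad e e' then (1 : ℝ) else 0) ≤
        Bf (near G) (ind {a e, b e}) (ind {a e', b e'}) := by
      rw [Bf_ind]
      split_ifs with hbad
      · obtain ⟨u, hu, v, hv, huv⟩ := hbad
        refine le_trans ?_ (single_le_sum (f := fun u => ∑ v ∈ {a e', b e'}, near G u v)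
          (fun u _ => sum_nonneg (fun v _ => near_nonneg G u v)) hu)
        refine le_trans ?_ (single_le_sum (f := fun v => near G u v)
          (fun v _ => near_nonneg G u v) hv)
        simp [near, huv]
      · exact sum_nonneg (fun u _ => sum_nonneg (fun v _ => near_nonneg G u v))
    rw [h1]
    have h3 := mul_nonneg (hy0 e) (hy0 e')
    have h4 := mul_le_mul_of_nonneg_left h2 (mul_nonneg h3 (mul_pos hM' hM').le)
    linarith
  have hk' : (0 : ℝ) < k := by positivity
  have hC' : (0 : ℝ) < C := by exact_mod_cast hCpos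
  have hfin : ∑ e, ∑ e', y e * y e' * (if bad e e' then 1 else 0) ≤ 1 / (4 * (k : ℝ)) := by
    have h1 := hlow.trans hup
    have h2 : (2 * M) * (2 * M) / r + (C : ℝ) * (4 * M) = M * M * (1 / (4 * (k : ℝ))) := by
      rw [hM, hr]; push_cast; field_simp; ring
    rw [h2] at h1
    exact le_of_mul_le_mul_left h1 (mul_pos hM' hM')
  obtain ⟨f, hf⟩ := greedy y hy0 hy1 bad k (by omega) (by convert hfin)
  have hn : ∀ l m, l < m → m ≤ s → ∀ u ∈ ({a (f l), b (f l)} : Finset V),
      ∀ v ∈ ({a (f m), b (f m)} : Finset V), ¬ G.Adj u v :=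
    fun l m hlm hm u hu v hv huv => hf l m hlm (by omega) ⟨u, hu, v, hv, Or.inr huv⟩
  refine hA.no_matching (fun l => a (f l)) (fun l => b (f l)) (fun l _ => ⟨ha _, hb _⟩)
    (fun l hl m hm => ⟨fun h => ?_, fun h => h ▸ hab _⟩)
    (fun l m hlm hm => ⟨hn l m hlm hm _ (by simp) _ (by simp),
      hn l m hlm hm _ (by simp) _ (by simp)⟩)
  by_contra hne
  rcases lt_or_gt_of_ne hne with hlt | hlt
  · exact hn l m hlt hm _ (by simp) _ (by simp) h
  · exact hn m l hlt hl _ (by simp) _ (by simp) h.symm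

end Pool.Agent.H459Z
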