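import Pool.Agent.H459Z.Final

/-! Covering the edges of a cut by a set meeting every good set in few vertices. -/

set_option autoImplicit false

namespace Pool.Agent.H459Z

open Finset

variable {V : Type}

/-- There is no complete bipartite subgraph with `T` vertices in `S` and `T` vertices in `S'`. -/
def NoBic (G : SimpleGraph V) (T : ℕ) (S S' : Finset V) : Prop :=
  ¬ ∃ U ⊆ S, ∃ W ⊆ S', U.card = T ∧ W.card = T ∧ ∀ u ∈ U, ∀ w ∈ W, G.Adj u w

open Classical in
theorem heavy_bound (G : SimpleGraph V) {T r : ℕ} (hr : 1 ≤ r) {S S' : Finset V}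
    (h : NoBic G T S S') (hS' : 2 * r * T ≤ S'.card) :
    (S.filter (fun u => S'.card < r * (S'.filter (G.Adj u)).card)).card ≤ T * (2 * r) ^ T := by
  set H := S.filter (fun u => S'.card < r * (S'.filter (G.Adj u)).card) with hH
  have key : ∀ j ≤ T, ∃ W ⊆ S', W.card = j ∧ ∃ U ⊆ H, H.card ≤ U.card * (2 * r) ^ j ∧
      ∀ u ∈ U, ∀ w ∈ W, G.Adj u w := by
    intro j
    induction j with
    | zero => exact fun _ => ⟨∅, empty_subset _, rfl, H, le_rfl, by simp, by simp⟩
    | succ j ih =>
      intro hj
      obtain ⟨W, hW, hWc, U, hU, hUc, hadj⟩ := ih (by omega)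
      have hT : T ≤ 2 * r * T := Nat.le_mul_of_pos_left _ (by omega)
      have hne : (S' \ W).Nonempty := by
        apply card_pos.mp
        rw [card_sdiff_of_subset hW]
        omega
      have h1 : ∀ u ∈ U, S'.card ≤ 2 * r * ((S' \ W).filter (G.Adj u)).card := by
        intro u hu
        have h2 := (mem_filter.mp (hU hu)).2
        have h3 : (S'.filter (G.Adj u)).card ≤ ((S' \ W).filter (G.Adj u)).card + j := by
          rw [← hWc]
          refine le_trans (card_le_card ?_) (card_union_le _ _)
          intro w hw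
          rw [mem_filter] at hw
          by_cases e : w ∈ W
          · exact mem_union_right _ e
          · exact mem_union_left _ (mem_filter.mpr ⟨mem_sdiff.mpr ⟨hw.1, e⟩, hw.2⟩)
        have h4 : r * j ≤ r * T := Nat.mul_le_mul_left _ (by omega)
        nlinarith
      have h5 : ∑ u ∈ U, ((S' \ W).filter (G.Adj u)).card =
          ∑ w ∈ S' \ W, (U.filter (fun u => G.Adj u w)).card := by
        simp only [card_filter]
        exact sum_comm
      have h6 : ∑ _w ∈ S' \ W, U.card ≤
          ∑ w ∈ S' \ W, 2 * r * (U.filter (fun u => G.Adj u w)).card := by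
        rw [← mul_sum, ← h5, mul_sum, sum_const, smul_eq_mul]
        calc (S' \ W).card * U.card ≤ S'.card * U.card :=
              Nat.mul_le_mul_right _ (card_le_card sdiff_subset)
          _ = ∑ _u ∈ U, S'.card := by rw [sum_const, smul_eq_mul, Nat.mul_comm]
          _ ≤ _ := sum_le_sum h1
      obtain ⟨w, hw, hw'⟩ := exists_le_of_sum_le hne h6
      rw [mem_sdiff] at hw
      refine ⟨insert w W, insert_subset hw.1 hW, by rw [card_insert_of_notMem hw.2, hWc],
        U.filter (fun u => G.Adj u w), (filter_subset _ _).trans hU, ?_, ?_⟩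
      · calc H.card ≤ U.card * (2 * r) ^ j := hUc
          _ ≤ (2 * r * (U.filter (fun u => G.Adj u w)).card) * (2 * r) ^ j :=
              Nat.mul_le_mul_right _ hw'
          _ = _ := by ring
      · intro u hu w' hw''
        rw [mem_filter] at hu
        rcases mem_insert.mp hw'' with rfl | hw''
        · exact hu.2
        · exact hadj u hu.1 w' hw''
  obtain ⟨W, hW, hWc, U, hU, hUc, hadj⟩ := key T le_rfl
  by_contra hlt
  push Not at hlt
  have hUT : T ≤ U.card := by
    by_contra hn
    push Not at hn
    have := Nat.mul_le_mul_right ((2 * r) ^ T) hn.le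
    omega
  obtain ⟨U', hU', hU'c⟩ := exists_subset_card_eq hUT
  exact h ⟨U', hU'.trans (hU.trans (filter_subset _ _)), W, hW, hU'c, hWc,
    fun u hu w hw => hadj u (hU' hu) w hw⟩

open Classical in
theorem kst (G : SimpleGraph V) {T r : ℕ} (hr : 1 ≤ r) {S S' : Finset V} (h : NoBic G T S S') :
    r * ∑ u ∈ S, (S'.filter (G.Adj u)).card ≤
      S.card * S'.card + r * (T * (2 * r) ^ T + 2 * r * T) * (S.card + S'.card) := by
  by_cases hS' : 2 * r * T ≤ S'.card
  · have hb := heavy_bound G hr h hS'
    set H := S.filter (fun u => S'.card < r * (S'.filter (G.Adj u)).card) with hH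
    have h1 : r * ∑ u ∈ S, (S'.filter (G.Adj u)).card ≤
        ∑ u ∈ S, (S'.card + if u ∈ H then r * S'.card else 0) := by
      rw [mul_sum]
      refine sum_le_sum (fun u hu => ?_)
      split_ifs with e
      · have : (S'.filter (G.Adj u)).card ≤ S'.card := card_filter_le _ _
        have := Nat.mul_le_mul_left r this
        omega
      · have : ¬ S'.card < r * (S'.filter (G.Adj u)).card := fun e' => e (mem_filter.mpr ⟨hu, e'⟩)
        omega
    rw [sum_add_distrib, sum_const, smul_eq_mul, ← sum_filter, sum_const, smul_eq_mul] at h1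
    have h2 : (S.filter (fun u => u ∈ H)).card ≤ T * (2 * r) ^ T :=
      le_trans (card_le_card (fun u hu => (mem_filter.mp hu).2)) hb
    have h3 := Nat.mul_le_mul_right (r * S'.card) h2
    have h4 : T * (2 * r) ^ T * (r * S'.card) ≤
        r * (T * (2 * r) ^ T + 2 * r * T) * (S.card + S'.card) := by
      calc T * (2 * r) ^ T * (r * S'.card) = r * (T * (2 * r) ^ T) * S'.card := by ring
        _ ≤ _ := Nat.mul_le_mul (Nat.mul_le_mul_left _ (Nat.le_add_right _ _))
          (Nat.le_add_left _ _)
    omega
  · have h1 : ∑ u ∈ S, (S'.filter (G.Adj u)).card ≤ ∑ _u ∈ S, 2 * r * T :=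
      sum_le_sum (fun u _ => le_trans (card_filter_le _ _) (by omega))
    rw [sum_const, smul_eq_mul] at h1
    have h2 := Nat.mul_le_mul_left r h1
    have h4 : r * (S.card * (2 * r * T)) ≤
        r * (T * (2 * r) ^ T + 2 * r * T) * (S.card + S'.card) := by
      calc r * (S.card * (2 * r * T)) = r * (2 * r * T) * S.card := by ring
        _ ≤ _ := Nat.mul_le_mul (Nat.mul_le_mul_left _ (Nat.le_add_left _ _))
          (Nat.le_add_right _ _)
    omega

open Classical in
theorem greedy {ι : Type} [Fintype ι] (y : ι → ℝ) (hy : ∀ i, 0 ≤ y i) (h1 : ∑ i, y i = 1)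
    (bad : ι → ι → Prop) (k : ℕ) (hk : 1 ≤ k)
    (hb : ∑ i, ∑ j, y i * y j * (if bad i j then 1 else 0) ≤ 1 / (4 * (k : ℝ))) :
    ∃ f : ℕ → ι, ∀ a b, a < b → b < k → ¬ bad (f a) (f b) := by
  have hk' : (1 : ℝ) ≤ k := by exact_mod_cast hk
  set deg : ι → ℝ := fun i => ∑ j, y j * (if bad i j then 1 else 0) with hdeg
  have hdeg0 : ∀ i, 0 ≤ deg i := fun i =>
    sum_nonneg (fun j _ => mul_nonneg (hy j) (by split_ifs <;> norm_num))
  have hb' : ∑ i, y i * deg i ≤ 1 / (4 * (k : ℝ)) := by
    simp only [hdeg, mul_sum, ← mul_assoc]; exact hb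
  have hbad : ∑ i, y i * (if deg i ≤ 1 / (2 * (k : ℝ)) then 0 else 1) ≤ 1 / 2 := by
    have : ∑ i, y i * (if deg i ≤ 1 / (2 * (k : ℝ)) then 0 else 1) ≤
        ∑ i, (2 * (k : ℝ)) * (y i * deg i) := by
      refine sum_le_sum (fun i _ => ?_)
      split_ifs with e
      · have := mul_nonneg (hy i) (hdeg0 i)
        simp only [mul_zero]; positivity
      · push Not at e
        rw [div_lt_iff₀ (by positivity)] at e
        nlinarith [hy i]
    rw [← mul_sum] at this
    calc _ ≤ _ := this
      _ ≤ (2 * (k : ℝ)) * (1 / (4 * (k : ℝ))) := by gcongr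
      _ = 1 / 2 := by field_simp; ring
  have hne : Nonempty ι := by
    by_contra hn
    rw [not_nonempty_iff] at hn
    simp at h1
  have key : ∀ m ≤ k, ∃ f : ℕ → ι, (∀ a < m, deg (f a) ≤ 1 / (2 * (k : ℝ))) ∧
      ∀ a b, a < b → b < m → ¬ bad (f a) (f b) := by
    intro m
    induction m with
    | zero => exact fun _ => ⟨fun _ => Classical.arbitrary ι, by simp, by simp⟩
    | succ m ih =>
      intro hm
      obtain ⟨f, f1, f2⟩ := ih (by omega)
      have hex : ∃ j, deg j ≤ 1 / (2 * (k : ℝ)) ∧ ∀ a < m, ¬ bad (f a) j := by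
        by_contra hno
        push Not at hno
        have h2 : ∑ j, y j ≤ ∑ j, (y j * (if deg j ≤ 1 / (2 * (k : ℝ)) then 0 else 1) +
            ∑ a ∈ range m, y j * (if bad (f a) j then 1 else 0)) := by
          refine sum_le_sum (fun j _ => ?_)
          have h0 : ∀ a ∈ range m, 0 ≤ y j * (if bad (f a) j then (1 : ℝ) else 0) :=
            fun a _ => mul_nonneg (hy j) (by split_ifs <;> norm_num)
          split_ifs with e
          · obtain ⟨a, ha, hb⟩ := hno j e
            have := single_le_sum h0 (mem_range.mpr ha)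
            simp only [hb, if_true, mul_one] at this
            simpa using this
          · have := sum_nonneg h0
            linarith
        rw [sum_add_distrib, sum_comm, h1] at h2
        have h3 : ∑ a ∈ range m, ∑ j, y j * (if bad (f a) j then (1 : ℝ) else 0) ≤
            ∑ _a ∈ range m, 1 / (2 * (k : ℝ)) := sum_le_sum (fun a ha => f1 a (mem_range.mp ha))
        rw [sum_const, card_range, nsmul_eq_mul] at h3
        have h4 : (m : ℝ) * (1 / (2 * (k : ℝ))) < 1 / 2 := by
          have : (m : ℝ) < k := by exact_mod_cast hm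
          rw [mul_one_div, div_lt_div_iff₀ (by positivity) (by norm_num)]
          linarith
        linarith
      obtain ⟨j, j1, j2⟩ := hex
      refine ⟨fun a => if a = m then j else f a, fun a ha => ?_, fun a b hab hb => ?_⟩
      · by_cases e : a = m
        · simp only [e, if_true]; exact j1
        · simp only [e, if_false]; exact f1 a (by omega)
      · have ea : a ≠ m := by omega
        by_cases e : b = m
        · simp only [e, ea, if_true, if_false]; exact j2 a (by omega)
        · simp only [e, ea, if_false]; exact f2 a b hab (by omega)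
  obtain ⟨f, _, f2⟩ := key k le_rfl
  exact ⟨f, f2⟩

end Pool.Agent.H459Z
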