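import Pool.Agent.H459Z.TD.Rec

/-! The two families of good sets: independent sets, and ends of induced matchings. -/

set_option autoImplicit false

namespace Pool.Agent.H459Z

open Finset

variable {V : Type}

theorem exists_enum {S : Finset V} {t : ℕ} (h : t ≤ S.card) :
    ∃ f : Fin t → V, Function.Injective f ∧ ∀ i, f i ∈ S :=
  ⟨fun i => (S.equivFin.symm (Fin.castLE h i) : V),
    fun _ _ e => Fin.castLE_injective h (S.equivFin.symm.injective (Subtype.ext e)),
    fun i => (S.equivFin.symm (Fin.castLE h i)).2⟩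

theorem tree_alpha (s t : ℕ) : ∃ c : ℕ, ∀ (V : Type) [Fintype V] (G : SimpleGraph V),
    SimFam G s → (¬ ∃ f : Fin t ⊕ Fin t → V, Function.Injective f ∧
        ∀ x y, G.Adj (f x) (f y) ↔ (completeBipartiteGraph (Fin t) (Fin t)).Adj x y) →
    ∃ (n : ℕ) (T : SimpleGraph (Fin n)) (bag : Fin n → Set V), T.IsTree ∧ (∀ v, ∃ w, v ∈ bag w) ∧
      (∀ v v', G.Adj v v' → ∃ w, v ∈ bag w ∧ v' ∈ bag w) ∧
      (∀ v, (T.induce {w | v ∈ bag w}).Connected) ∧
      ∀ w, ∀ S : Finset V, ↑S ⊆ bag w → G.IsIndepSet (S : Set V) → S.card ≤ c := by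
  classical
  obtain ⟨c, hc⟩ := tree_mu s t
  refine ⟨c, fun V _ G hS hK => ?_⟩
  obtain ⟨n, T, bag, h1, h2, h3, h4, h5⟩ := hc V G (fun S => ∀ u ∈ S, ∀ v ∈ S, ¬ G.Adj u v)
    (by simp) (fun S S' h hs u hu v hv => h u (hs hu) v (hs hv)) (by
      rintro S S' hS hS' ⟨U, hU, W, hW, hUc, hWc, hadj⟩
      obtain ⟨f, f1, f2⟩ := exists_enum hUc.ge
      obtain ⟨g, g1, g2⟩ := exists_enum hWc.ge
      refine hK ⟨Sum.elim f g, ?_, ?_⟩
      · rintro (x | x) (y | y) e
        · exact congrArg _ (f1 e)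
        · exact absurd e (hadj _ (f2 x) _ (g2 y)).ne
        · exact absurd e.symm (hadj _ (f2 y) _ (g2 x)).ne
        · exact congrArg _ (g1 e)
      · rintro (x | x) (y | y)
        · simpa using hS _ (hU (f2 x)) _ (hU (f2 y))
        · simpa using hadj _ (f2 x) _ (g2 y)
        · simpa using (hadj _ (f2 y) _ (g2 x)).symm
        · simpa using hS' _ (hW (g2 x)) _ (hW (g2 y))) (by
      intro d A X hcov _ J I hJ hI hJA hIA
      have hcross : ∀ u ∈ J, ∀ v ∈ I, ¬ G.Adj u v := fun u hu v hv huv =>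
        (hcov u (hJA u hu).1 v (hIA v hv).1 huv).elim (hJA u hu).2 (hIA v hv).2
      refine ⟨J ∪ I, ?_, fun _ h => h, ?_⟩
      · intro u hu v hv
        rcases mem_union.mp hu with hu | hu <;> rcases mem_union.mp hv with hv | hv
        · exact hJ u hu v hv
        · exact hcross u hu v hv
        · exact fun e => hcross v hv u hu e.symm
        · exact hI u hu v hv
      · rw [card_union_of_disjoint (disjoint_left.mpr
          (fun u hu hu' => (hIA u hu').1 (hJA u hu).1))]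
        omega) hS
  refine ⟨n, T, bag, h1, h2, h3, h4, fun w S hSw hI => h5 w S (fun u hu v hv huv => ?_) hSw⟩
  exact hI hu hv huv.ne huv

/-- `w` matches the vertices of `S` to partners, forming an induced matching. -/
def IMat (G : SimpleGraph V) (S : Finset V) (w : V → V) : Prop :=
  (∀ u ∈ S, G.Adj u (w u)) ∧
    ∀ u ∈ S, ∀ v ∈ S, u ≠ v → ¬ G.Adj u v ∧ ¬ G.Adj u (w v) ∧ ¬ G.Adj (w u) (w v)

theorem IMat.inj {G : SimpleGraph V} {S : Finset V} {w : V → V} (h : IMat G S w) :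
    Set.InjOn w S := fun u hu v hv e => by
  by_contra hne
  exact (h.2 u hu v hv hne).2.1 (e ▸ h.1 u hu)

theorem IMat.mono {G : SimpleGraph V} {S S' : Finset V} {w : V → V} (h : IMat G S w)
    (hs : S' ⊆ S) : IMat G S' w :=
  ⟨fun u hu => h.1 u (hs hu), fun u hu v hv => h.2 u (hs hu) v (hs hv)⟩

open Classical in
theorem imat_of_fun {ι : Type} (G : SimpleGraph V) (A : Finset ι) (u v : ι → V)
    (h1 : ∀ i ∈ A, G.Adj (u i) (v i))
    (h2 : ∀ i ∈ A, ∀ j ∈ A, i ≠ j → ¬ G.Adj (u i) (u j) ∧ ¬ G.Adj (u i) (v j) ∧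
      ¬ G.Adj (v i) (v j)) : (∃ w, IMat G (A.image u) w) ∧ (A.image u).card = A.card := by
  have hinj : Set.InjOn u A := fun i hi j hj e => by
    by_contra hne
    exact (h2 i hi j hj hne).2.1 (e ▸ h1 j hj)
  refine ⟨?_, card_image_of_injOn hinj⟩
  have key : ∀ x, ∃ y, ∀ i ∈ A, x = u i → y = v i := by
    intro x
    by_cases e : ∃ i ∈ A, x = u i
    · obtain ⟨i, hi, rfl⟩ := e
      exact ⟨v i, fun j hj e => by rw [hinj hi hj e]⟩
    · exact ⟨x, fun i hi e' => absurd ⟨i, hi, e'⟩ e⟩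
  choose w hw using key
  refine ⟨w, fun x hx => ?_, fun x hx y hy hxy => ?_⟩
  · obtain ⟨i, hi, rfl⟩ := mem_image.mp hx
    rw [hw _ i hi rfl]; exact h1 i hi
  · obtain ⟨i, hi, rfl⟩ := mem_image.mp hx
    obtain ⟨j, hj, rfl⟩ := mem_image.mp hy
    rw [hw _ i hi rfl, hw _ j hj rfl]
    exact h2 i hi j hj (fun e => hxy (by rw [e]))

open Classical in
theorem imat_trim {G : SimpleGraph V} {X : Set V} {d : ℕ} (hX : Mu (fun S => ∃ w, IMat G S w) X d)
    {J : Finset V} {w : V → V} (h : IMat G J w) :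
    J.card ≤ (J.filter (fun u => ¬ w u ∈ X)).card + d := by
  have h1 := card_filter_add_card_filter_not (s := J) (fun u => w u ∈ X)
  obtain ⟨k1, k2⟩ := imat_of_fun G (J.filter (fun u => w u ∈ X)) w id
    (fun i hi => (h.1 i (mem_filter.mp hi).1).symm) (fun i hi j hj hij => by
      obtain ⟨a1, _, a3⟩ := h.2 i (mem_filter.mp hi).1 j (mem_filter.mp hj).1 hij
      obtain ⟨_, b2, _⟩ := h.2 j (mem_filter.mp hj).1 i (mem_filter.mp hi).1 hij.symm
      exact ⟨a3, fun e => b2 e.symm, a1⟩)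
  have h2 := hX _ k1 (fun x hx => by
    obtain ⟨i, hi, rfl⟩ := mem_image.mp hx
    exact (mem_filter.mp hi).2)
  omega

theorem tree_match (s t : ℕ) : ∃ c : ℕ, ∀ (V : Type) [Fintype V] (G : SimpleGraph V),
    SimFam G s → (¬ ∃ f : Fin 4 → Fin t → V, Function.Injective (Function.uncurry f) ∧
        (∀ p i j, ¬ G.Adj (f p i) (f p j)) ∧
        (∀ i j, G.Adj (f 0 i) (f 1 j) ↔ i = j) ∧
        (∀ i j, G.Adj (f 2 i) (f 3 j) ↔ i = j) ∧
        (∀ i j, G.Adj (f 1 i) (f 2 j))) →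
    ∃ (n : ℕ) (T : SimpleGraph (Fin n)) (bag : Fin n → Set V), T.IsTree ∧ (∀ v, ∃ w, v ∈ bag w) ∧
      (∀ v v', G.Adj v v' → ∃ w, v ∈ bag w ∧ v' ∈ bag w) ∧
      (∀ v, (T.induce {w | v ∈ bag w}).Connected) ∧
      ∀ w, ¬ ∃ x y : Fin (c + 1) → V,
        (∀ i, G.Adj (x i) (y i) ∧ (x i ∈ bag w ∨ y i ∈ bag w)) ∧
        ∀ i j, i ≠ j → ¬ G.Adj (x i) (x j) ∧ ¬ G.Adj (x i) (y j) ∧ ¬ G.Adj (y i) (y j) := by
  classical
  obtain ⟨c, hc⟩ := tree_mu s (2 * t + 2)
  refine ⟨c, fun V _ G hS hK => ?_⟩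
  obtain ⟨n, T, bag, h1, h2, h3, h4, h5⟩ := hc V G (fun S => ∃ w, IMat G S w)
    ⟨id, by simp [IMat]⟩ (fun S S' ⟨w, h⟩ hs => ⟨w, h.mono hs⟩) (by
      rintro S S' ⟨w, hw⟩ ⟨w', hw'⟩ ⟨U, hU, W, hW, hUc, hWc, hadj⟩
      obtain ⟨b, b1, b2⟩ := exists_enum (S := U) (t := t) (by omega)
      have hcard : t ≤ (W.filter (fun x => ¬ w' x ∈ univ.image (fun i => w (b i)))).card := by
        have k1 := card_filter_add_card_filter_not (s := W)
          (fun x => w' x ∈ univ.image (fun i => w (b i)))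
        have k2 : (W.filter (fun x => w' x ∈ univ.image (fun i => w (b i)))).card ≤
            (univ.image (fun i => w (b i))).card :=
          card_le_card_of_injOn w' (fun x hx => (mem_filter.mp hx).2)
            (hw'.inj.mono (fun x hx => hW (mem_filter.mp hx).1))
        have k3 : (univ.image (fun i => w (b i))).card ≤ t := card_image_le.trans (by simp)
        omega
      obtain ⟨c, c1, c2⟩ := exists_enum hcard
      have c3 : ∀ i, c i ∈ W := fun i => (mem_filter.mp (c2 i)).1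
      have hb := fun i j (h : i ≠ j) => hw.2 _ (hU (b2 i)) _ (hU (b2 j)) (fun e => h (b1 e))
      have hc := fun i j (h : i ≠ j) => hw'.2 _ (hW (c3 i)) _ (hW (c3 j)) (fun e => h (c1 e))
      have hb0 := fun i => hw.1 _ (hU (b2 i))
      have hc0 := fun i => hw'.1 _ (hW (c3 i))
      have n01 : ∀ i j, w (b i) ≠ b j := fun i j e => by
        by_cases h : i = j
        · subst h; exact (hb0 i).ne e.symm
        · exact (hb i j h).1 (e ▸ hb0 i)
      have n32 : ∀ i j, w' (c i) ≠ c j := fun i j e => by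
        by_cases h : i = j
        · subst h; exact (hc0 i).ne e.symm
        · exact (hc i j h).1 (e ▸ hc0 i)
      have n02 : ∀ i j, w (b i) ≠ c j := fun i j e => by
        obtain ⟨u, hu, hne⟩ := exists_mem_ne (s := U) (by omega) (b i)
        exact (hw.2 u (hU hu) _ (hU (b2 i)) hne).2.1 (e ▸ hadj u hu _ (c3 j))
      have n31 : ∀ i j, w' (c i) ≠ b j := fun i j e => by
        obtain ⟨u, hu, hne⟩ := exists_mem_ne (s := W) (by omega) (c i)
        exact (hw'.2 u (hW hu) _ (hW (c3 i)) hne).2.1 (e ▸ (hadj _ (b2 j) u hu).symm)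
      have n30 : ∀ i j, w' (c i) ≠ w (b j) := fun i j e =>
        (mem_filter.mp (c2 i)).2 (mem_image.mpr ⟨j, mem_univ _, e.symm⟩)
      have n12 : ∀ i j, b i ≠ c j := fun i j => (hadj _ (b2 i) _ (c3 j)).ne
      have i0 : ∀ i j, w (b i) = w (b j) → i = j := fun i j e =>
        b1 (hw.inj (hU (b2 i)) (hU (b2 j)) e)
      have i3 : ∀ i j, w' (c i) = w' (c j) → i = j := fun i j e =>
        c1 (hw'.inj (hW (c3 i)) (hW (c3 j)) e)
      refine hK ⟨![fun i => w (b i), b, c, fun i => w' (c i)], ?_, ?_, ?_, ?_, ?_⟩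
      · rintro ⟨p, i⟩ ⟨q, j⟩ e
        fin_cases p <;> fin_cases q <;> simp [Function.uncurry] at e ⊢ <;>
          first
          | exact i0 _ _ e | exact b1 e | exact c1 e | exact i3 _ _ e
          | exact n01 _ _ e | exact n01 _ _ e.symm | exact n32 _ _ e | exact n32 _ _ e.symm
          | exact n02 _ _ e | exact n02 _ _ e.symm | exact n31 _ _ e | exact n31 _ _ e.symm
          | exact n30 _ _ e | exact n30 _ _ e.symm | exact n12 _ _ e | exact n12 _ _ e.symm
      · intro p i j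
        by_cases h : i = j
        · subst h; exact G.irrefl
        · fin_cases p
          · exact (hb i j h).2.2
          · exact (hb i j h).1
          · exact (hc i j h).1
          · exact (hc i j h).2.2
      · intro i j
        refine ⟨fun e => ?_, fun e => e ▸ (hb0 i).symm⟩
        by_contra h
        exact (hb j i (fun e' => h e'.symm)).2.1 e.symm
      · intro i j
        refine ⟨fun e => ?_, fun e => e ▸ hc0 i⟩
        by_contra h
        exact (hc i j h).2.1 e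
      · exact fun i j => hadj _ (b2 i) _ (c3 j)) (by
      rintro d A X hcov hX J I ⟨w, hw⟩ ⟨w', hw'⟩ hJA hIA
      have t1 := imat_trim hX hw
      have t2 := imat_trim hX hw'
      set J' := J.filter (fun u => ¬ w u ∈ X) with hJ'
      set I' := I.filter (fun u => ¬ w' u ∈ X) with hI'
      have j1 : ∀ u ∈ J', u ∈ J ∧ (u ∈ A ∧ u ∉ X) ∧ (w u ∈ A ∧ w u ∉ X) := by
        intro u hu
        obtain ⟨k1, k2⟩ := mem_filter.mp hu
        refine ⟨k1, hJA u k1, ?_, k2⟩
        by_contra hn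
        exact (hcov u (hJA u k1).1 _ hn (hw.1 u k1)).elim (hJA u k1).2 k2
      have j2 : ∀ u ∈ I', u ∈ I ∧ (u ∉ A ∧ u ∉ X) ∧ (w' u ∉ A ∧ w' u ∉ X) := by
        intro u hu
        obtain ⟨k1, k2⟩ := mem_filter.mp hu
        refine ⟨k1, hIA u k1, fun hn => ?_, k2⟩
        exact (hcov _ hn u (hIA u k1).1 (hw'.1 u k1).symm).elim k2 (hIA u k1).2
      have cr : ∀ x y, (x ∈ A ∧ x ∉ X) → (y ∉ A ∧ y ∉ X) → ¬ G.Adj x y :=
        fun x y hx hy e => (hcov x hx.1 y hy.1 e).elim hx.2 hy.2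
      have e1 : ∀ u ∈ J', (if u ∈ A then w u else w' u) = w u := fun u hu => if_pos (j1 u hu).2.1.1
      have e2 : ∀ u ∈ I', (if u ∈ A then w u else w' u) = w' u :=
        fun u hu => if_neg (j2 u hu).2.1.1
      refine ⟨J' ∪ I', ⟨fun u => if u ∈ A then w u else w' u, fun u hu => ?_,
        fun u hu v hv huv => ?_⟩, ?_, ?_⟩
      · rcases mem_union.mp hu with hu | hu
        · simp only [e1 u hu]; exact hw.1 u (j1 u hu).1
        · simp only [e2 u hu]; exact hw'.1 u (j2 u hu).1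
      · rcases mem_union.mp hu with hu | hu <;> rcases mem_union.mp hv with hv | hv
        · simp only [e1 u hu, e1 v hv]; exact hw.2 u (j1 u hu).1 v (j1 v hv).1 huv
        · simp only [e1 u hu, e2 v hv]
          exact ⟨cr _ _ (j1 u hu).2.1 (j2 v hv).2.1, cr _ _ (j1 u hu).2.1 (j2 v hv).2.2,
            cr _ _ (j1 u hu).2.2 (j2 v hv).2.2⟩
        · simp only [e2 u hu, e1 v hv]
          exact ⟨fun e => cr _ _ (j1 v hv).2.1 (j2 u hu).2.1 e.symm,
            fun e => cr _ _ (j1 v hv).2.2 (j2 u hu).2.1 e.symm,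
            fun e => cr _ _ (j1 v hv).2.2 (j2 u hu).2.2 e.symm⟩
        · simp only [e2 u hu, e2 v hv]; exact hw'.2 u (j2 u hu).1 v (j2 v hv).1 huv
      · convert union_subset_union (filter_subset _ J) (filter_subset _ I)
      · rw [card_union_of_disjoint (disjoint_left.mpr
          (fun u hu hu' => (j2 u hu').2.1.1 (j1 u hu).2.1.1))]
        omega) hS
  refine ⟨n, T, bag, h1, h2, h3, h4, fun z ⟨x, y, k1, k2⟩ => ?_⟩
  obtain ⟨m1, m2⟩ := imat_of_fun G univ (fun i => if x i ∈ bag z then x i else y i)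
    (fun i => if x i ∈ bag z then y i else x i) (fun i _ => by
      split_ifs
      · exact (k1 i).1
      · exact (k1 i).1.symm) (fun i _ j _ hij => by
      obtain ⟨a1, a2, a3⟩ := k2 i j hij
      have a4 : ¬ G.Adj (y i) (x j) := fun e => (k2 j i hij.symm).2.1 e.symm
      split_ifs <;> exact ⟨by assumption, by assumption, by assumption⟩)
  have := h5 z _ m1 (fun v hv => by
    obtain ⟨i, _, rfl⟩ := mem_image.mp hv
    split_ifs with e
    · exact e
    · exact (k1 i).2.resolve_left e)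
  rw [m2, card_univ, Fintype.card_fin] at this
  omega

end Pool.Agent.H459Z
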