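import Pool.Agent.H459Z.TD.Cover

/-! Tree decompositions given by parent pointers. -/

set_option autoImplicit false

namespace Pool.Agent.H459Z

variable {V : Type}

/-- A tree decomposition of `G[W]` with root bag `R`, all of whose bags satisfy `ok`. -/
def PD (G : SimpleGraph V) (ok : Set V → Prop) (W R : Set V) : Prop :=
  ∃ (n : ℕ) (par : ℕ → ℕ) (B : ℕ → Set V), 0 < n ∧ (∀ i, 0 < i → i < n → par i < i) ∧ B 0 = R ∧
    (∀ i < n, B i ⊆ W) ∧ (∀ v ∈ W, ∃ i < n, v ∈ B i) ∧
    (∀ u ∈ W, ∀ v ∈ W, G.Adj u v → ∃ i < n, u ∈ B i ∧ v ∈ B i) ∧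
    (∀ v i, 0 < i → i < n → v ∈ B i → v ∈ B (par i) ∨ ∀ j < n, v ∈ B j → i ≤ j) ∧
    ∀ i < n, ok (B i)

theorem pd_single (G : SimpleGraph V) {ok : Set V → Prop} {R : Set V} (h : ok R) : PD G ok R R :=
  ⟨1, fun _ => 0, fun _ => R, Nat.one_pos, fun i h1 h2 => by omega, rfl, fun _ _ => le_rfl,
    fun v hv => ⟨0, Nat.one_pos, hv⟩, fun u hu v hv _ => ⟨0, Nat.one_pos, hu, hv⟩,
    fun v i h1 h2 => by omega, fun _ _ => h⟩

theorem PD.graft {G : SimpleGraph V} {ok : Set V → Prop} {W₁ R₁ W₂ R₂ : Set V}
    (h₁ : PD G ok W₁ R₁) (h₂ : PD G ok W₂ R₂) (hint : ∀ v ∈ W₁, v ∈ W₂ → v ∈ R₁ ∧ v ∈ R₂)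
    (hedge : ∀ u ∈ W₁, ∀ v ∈ W₂, G.Adj u v → u ∈ W₂ ∨ v ∈ W₁) : PD G ok (W₁ ∪ W₂) R₁ := by
  obtain ⟨n, p, B, a1, a2, a3, a4, a5, a6, a7, a8⟩ := h₁
  obtain ⟨m, q, D, b1, b2, b3, b4, b5, b6, b7, b8⟩ := h₂
  have hB : ∀ i < n, (if i < n then B i else D (i - n)) = B i := fun i hi => if_pos hi
  have hD : ∀ j, (if n + j < n then B (n + j) else D (n + j - n)) = D j := fun j => by
    rw [if_neg (by omega), Nat.add_sub_cancel_left]
  have hcase : ∀ i, i < n + m → i < n ∨ ∃ j < m, i = n + j := fun i hi => by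
    by_cases e : i < n
    · exact Or.inl e
    · exact Or.inr ⟨i - n, by omega, by omega⟩
  refine ⟨n + m, fun i => if i < n then p i else if i = n then 0 else n + q (i - n),
    fun i => if i < n then B i else D (i - n), by omega, ?_, ?_, ?_, ?_, ?_, ?_, ?_⟩
  · intro i h1 h2
    beta_reduce
    split_ifs with e e'
    · exact a2 i h1 e
    · exact h1
    · have := b2 (i - n) (by omega) (by omega); omega
  · exact (hB 0 a1).trans a3
  · intro i hi
    rcases hcase i hi with e | ⟨j, hj, rfl⟩
    · simp only [hB i e]; exact (a4 i e).trans Set.subset_union_left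
    · simp only [hD j]; exact (b4 j hj).trans Set.subset_union_right
  · rintro v (hv | hv)
    · obtain ⟨i, hi, h⟩ := a5 v hv
      exact ⟨i, by omega, by simp only [hB i hi]; exact h⟩
    · obtain ⟨j, hj, h⟩ := b5 v hv
      exact ⟨n + j, by omega, by simp only [hD j]; exact h⟩
  · have k1 : ∀ u ∈ W₁, ∀ v ∈ W₁, G.Adj u v → ∃ i < n + m,
        u ∈ (if i < n then B i else D (i - n)) ∧ v ∈ (if i < n then B i else D (i - n)) := by
      intro u hu v hv huv
      obtain ⟨i, hi, h⟩ := a6 u hu v hv huv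
      exact ⟨i, by omega, by simp only [hB i hi]; exact h⟩
    have k2 : ∀ u ∈ W₂, ∀ v ∈ W₂, G.Adj u v → ∃ i < n + m,
        u ∈ (if i < n then B i else D (i - n)) ∧ v ∈ (if i < n then B i else D (i - n)) := by
      intro u hu v hv huv
      obtain ⟨j, hj, h⟩ := b6 u hu v hv huv
      exact ⟨n + j, by omega, by simp only [hD j]; exact h⟩
    rintro u (hu | hu) v (hv | hv) huv
    · exact k1 u hu v hv huv
    · rcases hedge u hu v hv huv with h | h
      · exact k2 u h v hv huv
      · exact k1 u hu v h huv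
    · rcases hedge v hv u hu huv.symm with h | h
      · exact k2 u hu v h huv
      · exact k1 u h v hv huv
    · exact k2 u hu v hv huv
  · intro v i h0 hi hv
    rcases hcase i hi with e | ⟨j, hj, rfl⟩
    · simp only [hB i e] at hv
      simp only [if_pos e, hB _ ((a2 i h0 e).trans e)]
      rcases a7 v i h0 e hv with h | h
      · exact Or.inl h
      · refine Or.inr (fun j hj hv' => ?_)
        by_cases e' : j < n
        · simp only [hB j e'] at hv'; exact h j e' hv'
        · omega
    · simp only [hD j] at hv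
      have hvW := b4 j hj hv
      have hnot : ¬ (v ∈ R₁ ∧ v ∈ R₂) → (∀ j' < m, v ∈ D j' → j ≤ j') → ∀ l < n + m,
          v ∈ (if l < n then B l else D (l - n)) → n + j ≤ l := by
        intro hn hmin l hl hv'
        rcases hcase l hl with e | ⟨j', hj', rfl⟩
        · simp only [hB l e] at hv'
          exact absurd (hint v (a4 l e hv') hvW) hn
        · simp only [hD j'] at hv'
          have := hmin j' hj' hv'; omega
      rcases Nat.eq_zero_or_pos j with rfl | hj0
      · simp only [Nat.add_zero, lt_irrefl, if_false, if_true, hB 0 a1]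
        by_cases e : v ∈ R₁
        · exact Or.inl (a3 ▸ e)
        · exact Or.inr (hnot (fun h => e h.1) (fun _ _ _ => Nat.zero_le _))
      · have e1 : ¬ n + j < n := by omega
        have e2 : n + j ≠ n := by omega
        simp only [e1, e2, if_false, Nat.add_sub_cancel_left]
        rcases b7 v j hj0 hj hv with h | h
        · exact Or.inl (by rw [if_neg (by omega)]; exact h)
        · refine Or.inr (hnot (fun h' => ?_) h)
          have := h 0 b1 (b3 ▸ h'.2); omega
  · intro i hi
    rcases hcase i hi with e | ⟨j, hj, rfl⟩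
    · simp only [hB i e]; exact a8 i e
    · simp only [hD j]; exact b8 j hj

/-- The tree on `Fin n` given by parent pointers. -/
def parTree (n : ℕ) (par : ℕ → ℕ) : SimpleGraph (Fin n) where
  Adj i j := (j < i ∧ par i = j) ∨ (i < j ∧ par j = i)
  symm := ⟨fun _ _ h => h.symm⟩
  loopless := ⟨fun _ h => by rcases h with h | h <;> exact lt_irrefl _ h.1⟩

theorem parTree_isTree {n : ℕ} (hn : 0 < n) {par : ℕ → ℕ} (hp : ∀ i, 0 < i → i < n → par i < i) :
    (parTree n par).IsTree := by
  refine ⟨?_, ?_⟩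
  · have key : ∀ k (hk : k < n), (parTree n par).Reachable ⟨k, hk⟩ ⟨0, hn⟩ := by
      intro k
      induction k using Nat.strong_induction_on with
      | _ k ih =>
      intro hk
      rcases Nat.eq_zero_or_pos k with rfl | h0
      · rfl
      · have h1 := hp k h0 hk
        exact (SimpleGraph.Adj.reachable (G := parTree n par) (v := ⟨par k, h1.trans hk⟩)
          (Or.inl ⟨h1, rfl⟩)).trans (ih _ h1 _)
    have : Nonempty (Fin n) := ⟨⟨0, hn⟩⟩
    exact ⟨fun u v => (key u.1 u.2).trans (key v.1 v.2).symm⟩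
  · have main : ∀ i j : Fin n, j < i → par i = j →
        ¬ ((parTree n par).deleteEdges {s(i, j)}).Reachable i j := by
      intro i j hji hpar hreach
      have hle : ∀ x : ℕ, Relation.ReflTransGen (fun a b => b < a ∧ par a = b) x i → (i : ℕ) ≤ x := by
        intro x hx
        induction hx using Relation.ReflTransGen.head_induction_on with
        | refl => exact le_rfl
        | head h _ ih => omega
      have hcl : ∀ x : Fin n, ((parTree n par).deleteEdges {s(i, j)}).Reachable i x →
          Relation.ReflTransGen (fun a b : ℕ => b < a ∧ par a = b) x i := by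
        intro x hx
        rw [SimpleGraph.reachable_iff_reflTransGen] at hx
        induction hx with
        | refl => exact Relation.ReflTransGen.refl
        | tail _ hxy ih =>
          rename_i x y _
          rw [SimpleGraph.deleteEdges_adj] at hxy
          rcases hxy.1 with h | h
          · rcases ih.cases_head with e | ⟨c, hc, hc'⟩
            · exfalso
              apply hxy.2
              have e1 : x = i := Fin.ext e
              have e2 : y = j := Fin.ext (by rw [← h.2, ← hpar, e])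
              rw [e1, e2]; rfl
            · rw [← h.2, hc.2]; exact hc'
          · exact Relation.ReflTransGen.head ⟨h.1, h.2⟩ ih
      have := hle _ (hcl j hreach)
      exact absurd hji (not_lt.mpr this)
    rw [SimpleGraph.isAcyclic_iff_forall_adj_isBridge]
    intro u v huv
    rcases huv with h | h
    · exact SimpleGraph.isBridge_iff.mpr (main u v h.1 h.2)
    · rw [Sym2.eq_swap]
      exact SimpleGraph.isBridge_iff.mpr (main v u h.1 h.2)

theorem PD.toTree {G : SimpleGraph V} {ok : Set V → Prop} {R : Set V} (h : PD G ok Set.univ R) :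
    ∃ (n : ℕ) (T : SimpleGraph (Fin n)) (bag : Fin n → Set V), T.IsTree ∧ (∀ v, ∃ w, v ∈ bag w) ∧
      (∀ v v', G.Adj v v' → ∃ w, v ∈ bag w ∧ v' ∈ bag w) ∧
      (∀ v, (T.induce {w | v ∈ bag w}).Connected) ∧ ∀ w, ok (bag w) := by
  classical
  obtain ⟨n, p, B, a1, a2, _, _, a5, a6, a7, a8⟩ := h
  refine ⟨n, parTree n p, fun i => B i, parTree_isTree a1 a2, fun v => ?_, fun u v huv => ?_,
    fun v => ?_, fun w => a8 w w.2⟩
  · obtain ⟨i, hi, h⟩ := a5 v trivial
    exact ⟨⟨i, hi⟩, h⟩
  · obtain ⟨i, hi, h⟩ := a6 u trivial v trivial huv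
    exact ⟨⟨i, hi⟩, h⟩
  · have hex : ∃ i, i < n ∧ v ∈ B i := a5 v trivial
    obtain ⟨m1, m2⟩ := Nat.find_spec hex
    have key : ∀ k (hk : k < n) (hv : v ∈ B k),
        ((parTree n p).induce {w : Fin n | v ∈ B w}).Reachable ⟨⟨k, hk⟩, hv⟩
          ⟨⟨Nat.find hex, m1⟩, m2⟩ := by
      intro k
      induction k using Nat.strong_induction_on with
      | _ k ih =>
      intro hk hv
      have hle : Nat.find hex ≤ k := Nat.find_min' hex ⟨hk, hv⟩
      rcases hle.eq_or_lt with e | hlt
      · subst e; rfl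
      · have h0 : 0 < k := by omega
        have h1 := a2 k h0 hk
        rcases a7 v k h0 hk hv with h | h
        · refine SimpleGraph.Reachable.trans (SimpleGraph.Adj.reachable ?_)
            (ih _ h1 (h1.trans hk) h)
          exact Or.inl ⟨h1, rfl⟩
        · have := h _ m1 m2; omega
    have : Nonempty {w : Fin n | v ∈ B w} := ⟨⟨⟨_, m1⟩, m2⟩⟩
    exact ⟨fun x y => (key x.1.1 x.1.2 x.2).trans (key y.1.1 y.1.2 y.2).symm⟩

end Pool.Agent.H459Z
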