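import Pool.Agent.H459Z.TD.PD

/-! Balanced cuts with small covers give tree decompositions with small bags. -/

set_option autoImplicit false

namespace Pool.Agent.H459Z

open Finset

variable {V : Type}

theorem Mu.mono {𝒢 : Finset V → Prop} {X Y : Set V} {d e : ℕ} (h : Mu 𝒢 Y d) (hX : X ⊆ Y)
    (hd : d ≤ e) : Mu 𝒢 X e := fun S hS hSX => (h S hS (hSX.trans hX)).trans hd

theorem Mu.union {𝒢 : Finset V → Prop} (hdown : ∀ S S', 𝒢 S → S' ⊆ S → 𝒢 S') {X Y : Set V}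
    {d e : ℕ} (hX : Mu 𝒢 X d) (hY : Mu 𝒢 Y e) : Mu 𝒢 (X ∪ Y) (d + e) := by
  classical
  intro S hS hSX
  rw [← card_filter_add_card_filter_not (s := S) (fun v => v ∈ X)]
  refine Nat.add_le_add (hX _ (hdown S _ hS (filter_subset _ _)) ?_)
    (hY _ (hdown S _ hS (filter_subset _ _)) ?_)
  · intro v hv
    exact (mem_filter.mp hv).2
  · intro v hv
    have := mem_filter.mp hv
    exact (hSX this.1).resolve_left this.2

theorem mu_singleton (𝒢 : Finset V → Prop) (v : V) : Mu 𝒢 {v} 1 := fun S _ hS =>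
  card_le_one.mpr (fun a ha b hb => (hS ha).trans (hS hb).symm)

theorem Cov.compl {G : SimpleGraph V} {A X : Set V} (h : Cov G A X) : Cov G Aᶜ X :=
  fun a ha b hb hab => (h b (not_not.mp hb) a ha hab.symm).symm

open Classical in
theorem exists_pd [Finite V] (G : SimpleGraph V) (𝒢 : Finset V → Prop) (d : ℕ)
    (hdown : ∀ S S', 𝒢 S → S' ⊆ S → 𝒢 S')
    (hcomb : ∀ (A X : Set V), Cov G A X → Mu 𝒢 X d → ∀ J I, 𝒢 J → 𝒢 I → (∀ v ∈ J, v ∈ A ∧ v ∉ X) →
      (∀ v ∈ I, v ∉ A ∧ v ∉ X) → ∃ K, 𝒢 K ∧ K ⊆ J ∪ I ∧ J.card + I.card ≤ K.card + 2 * d)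
    (hbal : ∀ I : Finset V, 4 * (4 * d + 1) ≤ I.card → ∃ A X : Set V, Cov G A X ∧ Mu 𝒢 X d ∧
      4 * d + 1 ≤ (I.filter (fun v => v ∈ A)).card ∧ 4 * d + 1 ≤ (I.filter (fun v => v ∉ A)).card)
    (n : ℕ) : ∀ W Z : Set V, Z ⊆ W → (W \ Z).ncard ≤ n → Mu 𝒢 Z (16 * d + 3) →
      ∃ R, Z ⊆ R ∧ PD G (fun B => Mu 𝒢 B (17 * d + 4)) W R := by
  induction n with
  | zero =>
    intro W Z hZW hn hZ
    have : W \ Z = ∅ := (Set.ncard_eq_zero (Set.toFinite _)).mp (by omega)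
    have e : W = Z := Set.Subset.antisymm (Set.sdiff_eq_empty.mp this) hZW
    subst e
    exact ⟨W, le_rfl, pd_single G (hZ.mono le_rfl (by omega))⟩
  | succ n ih =>
    intro W Z hZW hn hZ
    by_cases hn' : (W \ Z).ncard ≤ n
    · exact ih W Z hZW hn' hZ
    obtain ⟨v, hv⟩ : (W \ Z).Nonempty := Set.nonempty_of_ncard_ne_zero (by omega)
    have hZ'W : Z ∪ {v} ⊆ W := Set.union_subset hZW (Set.singleton_subset_iff.mpr hv.1)
    have hcard : (W \ (Z ∪ {v})).ncard ≤ n := by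
      have : (W \ (Z ∪ {v})).ncard < (W \ Z).ncard :=
        Set.ncard_lt_ncard ⟨Set.sdiff_subset_sdiff_right Set.subset_union_left,
          fun h => (h hv).2 (Or.inr rfl)⟩ (Set.toFinite _)
      omega
    have hZ' : Mu 𝒢 (Z ∪ {v}) (16 * d + 3 + 1) := hZ.union hdown (mu_singleton 𝒢 v)
    generalize hZ1 : Z ∪ {v} = Z' at hZ'W hcard hZ'
    have hZZ' : Z ⊆ Z' := hZ1 ▸ Set.subset_union_left
    by_cases hsmall : Mu 𝒢 Z' (16 * d + 3)
    · obtain ⟨R, h1, h2⟩ := ih W Z' hZ'W hcard hsmall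
      exact ⟨R, hZZ'.trans h1, h2⟩
    unfold Mu at hsmall
    push Not at hsmall
    obtain ⟨I, hI, hIZ, hIc⟩ := hsmall
    obtain ⟨A, X, hcov, hX, hA1, hA2⟩ := hbal I (by omega)
    have side : ∀ A : Set V, Cov G A X → 4 * d + 1 ≤ (I.filter (fun v => v ∉ A)).card →
        ∃ R, (Z' ∩ A) ∪ (W ∩ X) ⊆ R ∧
          PD G (fun B => Mu 𝒢 B (17 * d + 4)) ((W ∩ A) ∪ (W ∩ X)) R := by
      intro A hcov hA
      refine ih _ _ (Set.union_subset_union_left _ (Set.inter_subset_inter_left _ hZ'W)) ?_ ?_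
      · refine le_trans (Set.ncard_le_ncard ?_ (Set.toFinite _)) hcard
        rintro x ⟨h1 | h1, h2⟩
        · exact ⟨h1.1, fun h => h2 (Or.inl ⟨h, h1.2⟩)⟩
        · exact absurd (Or.inr h1) h2
      · have hJ : Mu 𝒢 ((Z' ∩ A) \ X) (15 * d + 3) := by
          intro J hJ hJs
          have h1 := card_filter_add_card_filter_not (s := I.filter (fun v => v ∉ A))
            (fun v => v ∈ X)
          have h2 := hX _ (hdown I ((I.filter (fun v => v ∉ A)).filter (fun v => v ∈ X)) hI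
            ((filter_subset _ _).trans (filter_subset _ _))) (fun v hv => (mem_filter.mp hv).2)
          obtain ⟨K, k1, k2, k3⟩ := hcomb A X hcov hX J
            ((I.filter (fun v => v ∉ A)).filter (fun v => ¬ v ∈ X)) hJ
            (hdown I _ hI ((filter_subset _ _).trans (filter_subset _ _)))
            (fun v hv => ⟨(hJs hv).1.2, (hJs hv).2⟩)
            (fun v hv => ⟨(mem_filter.mp (mem_filter.mp hv).1).2, (mem_filter.mp hv).2⟩)
          have h3 := hZ' K k1 (fun v hv => by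
            rcases mem_union.mp (k2 hv) with h | h
            · exact (hJs h).1.1
            · exact hIZ (mem_filter.mp (mem_filter.mp h).1).1)
          omega
        refine (hJ.union hdown hX).mono ?_ (by omega)
        rintro x (h | h)
        · by_cases e : x ∈ X
          · exact Or.inr e
          · exact Or.inl ⟨h, e⟩
        · exact Or.inr h.2
    obtain ⟨R₁, r1, p1⟩ := side A hcov hA2
    obtain ⟨R₂, r2, p2⟩ := side Aᶜ hcov.compl (by simpa using hA1)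
    have p0 : PD G (fun B => Mu 𝒢 B (17 * d + 4)) (Z' ∪ W ∩ X) (Z' ∪ W ∩ X) :=
      pd_single G ((hZ'.union hdown hX).mono
        (Set.union_subset_union_right _ Set.inter_subset_right) (by omega))
    have p3 := (p0.graft p1 ?_ ?_).graft p2 ?_ ?_
    · refine ⟨Z' ∪ W ∩ X, hZZ'.trans Set.subset_union_left, ?_⟩
      have e : (Z' ∪ W ∩ X ∪ (W ∩ A ∪ W ∩ X)) ∪ (W ∩ Aᶜ ∪ W ∩ X) = W := by
        ext x
        have := @hZ'W x
        simp only [Set.mem_union, Set.mem_inter_iff, Set.mem_compl_iff]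
        tauto
      rwa [e] at p3
    · intro x hx hx'
      refine ⟨hx, r1 ?_⟩
      simp only [Set.mem_union, Set.mem_inter_iff] at hx hx' ⊢
      tauto
    · intro u hu x hx hux
      have h1 := @hZ'W u
      have h2 := hcov x
      simp only [Set.mem_union, Set.mem_inter_iff] at hu hx ⊢
      by_cases e : u ∈ A
      · tauto
      · rcases hx with hx | hx
        · have := h2 hx.2 u e hux.symm
          tauto
        · tauto
    · intro x hx hx'
      have h1 : x ∈ Z' ∪ W ∩ X := by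
        simp only [Set.mem_union, Set.mem_inter_iff, Set.mem_compl_iff] at hx hx' ⊢
        tauto
      refine ⟨h1, r2 ?_⟩
      simp only [Set.mem_union, Set.mem_inter_iff, Set.mem_compl_iff] at h1 hx' ⊢
      tauto
    · intro u hu x hx hux
      have h1 := @hZ'W u
      have h2 := hcov u
      simp only [Set.mem_union, Set.mem_inter_iff, Set.mem_compl_iff] at hu hx ⊢
      by_cases e : u ∈ A
      · rcases hx with hx | hx
        · have := h2 e x hx.2 hux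
          tauto
        · tauto
      · tauto

open Classical in
/-- A ranked family of sets, each covered by one point and at most three sets of smaller rank,
has a member splitting any large finite set in a balanced way. -/
theorem exists_balanced (Fam : Set V → ℕ → Prop) (n₀ : ℕ) (h0 : Fam Set.univ n₀)
    (hF : ∀ S n, Fam S n → ∃ (P : Set V) (ch : Finset (Set V)), P.Subsingleton ∧ ch.card ≤ 3 ∧
      (∀ S' ∈ ch, ∃ n' < n, Fam S' n') ∧ ∀ x ∈ S, x ∈ P ∨ ∃ S' ∈ ch, x ∈ S')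
    (j : ℕ) (hj : 1 ≤ j) (I : Finset V) (hI : 4 * j ≤ I.card) :
    ∃ A n, Fam A n ∧ j ≤ (I.filter (fun v => v ∈ A)).card ∧
      j ≤ (I.filter (fun v => v ∉ A)).card := by
  have hex : ∃ n, ∃ A, Fam A n ∧ j ≤ (I.filter (fun v => v ∈ A)).card :=
    ⟨n₀, Set.univ, h0, by simp; omega⟩
  obtain ⟨A, hA, hAj⟩ := Nat.find_spec hex
  refine ⟨A, _, hA, hAj, ?_⟩
  obtain ⟨P, ch, hP, hch, h1, h2⟩ := hF A _ hA
  have h3 : ∀ S' ∈ ch, (I.filter (fun v => v ∈ S')).card ≤ j - 1 := by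
    intro S' hS'
    obtain ⟨n', hn', hS⟩ := h1 S' hS'
    have := Nat.find_min hex hn'
    push Not at this
    have := this S' hS
    omega
  have h4 : I.filter (fun v => v ∈ A) ⊆
      I.filter (fun v => v ∈ P) ∪ ch.biUnion (fun S' => I.filter (fun v => v ∈ S')) := by
    intro x hx
    rw [mem_filter] at hx
    rcases h2 x hx.2 with h | ⟨S', k1, k2⟩
    · exact mem_union_left _ (mem_filter.mpr ⟨hx.1, h⟩)
    · exact mem_union_right _ (mem_biUnion.mpr ⟨S', k1, mem_filter.mpr ⟨hx.1, k2⟩⟩)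
  have h5 : (I.filter (fun v => v ∈ P)).card ≤ 1 :=
    card_le_one.mpr (fun a ha b hb => hP (mem_filter.mp ha).2 (mem_filter.mp hb).2)
  have h6 := card_biUnion_le_card_mul ch (fun S' => I.filter (fun v => v ∈ S')) (j - 1) h3
  have h7 := (card_le_card h4).trans (card_union_le _ _)
  have h8 := Nat.mul_le_mul_right (j - 1) hch
  have h9 := card_filter_add_card_filter_not (s := I) (fun v => v ∈ A)
  omega

/-- The abstract form of bounded sim-width. -/
def SimFam (G : SimpleGraph V) (s : ℕ) : Prop :=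
  ∃ (Fam : Set V → ℕ → Prop) (n₀ : ℕ), Fam Set.univ n₀ ∧ (∀ S n, Fam S n → Sim G s S) ∧
    ∀ S n, Fam S n → ∃ (P : Set V) (ch : Finset (Set V)), P.Subsingleton ∧ ch.card ≤ 3 ∧
      (∀ S' ∈ ch, ∃ n' < n, Fam S' n') ∧ ∀ x ∈ S, x ∈ P ∨ ∃ S' ∈ ch, x ∈ S'

theorem Dec.simFam {G : SimpleGraph V} {k : ℕ} (h : Dec G k) : SimFam G k := by
  classical
  obtain ⟨m, T, L, hT, hdeg, hL, hS⟩ := h
  have hP : ∀ v : Fin m, (L ⁻¹' {v}).Subsingleton := fun v x hx y hy =>
    hL ((Set.mem_singleton_iff.mp hx).trans (Set.mem_singleton_iff.mp hy).symm)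
  have hcard : ∀ (v : Fin m) (p : Fin m → Prop), ∃ ch : Finset (Set V), ch.card ≤ 3 ∧
      ∀ S, S ∈ ch ↔ ∃ c, T.Adj v c ∧ p c ∧ S = L ⁻¹' side T c v := by
    intro v p
    refine ⟨(((Set.toFinite (T.neighborSet v)).toFinset).filter p).image
      (fun c => L ⁻¹' side T c v), ?_, fun S => ?_⟩
    · refine card_image_le.trans ((card_filter_le _ _).trans ?_)
      rw [← Set.ncard_eq_toFinset_card]
      exact hdeg v
    · simp only [mem_image, mem_filter, Set.Finite.mem_toFinset, SimpleGraph.mem_neighborSet]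
      exact ⟨fun ⟨c, h1, h2⟩ => ⟨c, h1.1, h1.2, h2.symm⟩, fun ⟨c, h1, h2, h3⟩ => ⟨c, ⟨h1, h2⟩, h3.symm⟩⟩
  refine ⟨fun S n => (S = Set.univ ∧ n = m + 1) ∨
    ∃ v p, T.Adj v p ∧ S = L ⁻¹' side T v p ∧ n = (side T v p).ncard, m + 1, Or.inl ⟨rfl, rfl⟩,
    ?_, ?_⟩
  · rintro S n (⟨rfl, _⟩ | ⟨v, p, h, rfl, _⟩)
    · exact sim_univ G k
    · exact hS v p h
  · rintro S n (⟨rfl, rfl⟩ | ⟨v, p, h, rfl, rfl⟩)
    · obtain ⟨r⟩ := hT.connected.nonempty
      obtain ⟨ch, h1, h2⟩ := hcard r (fun _ => True)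
      refine ⟨_, ch, hP r, h1, fun S' hS' => ?_, fun x _ => ?_⟩
      · obtain ⟨c, k1, _, rfl⟩ := (h2 S').mp hS'
        refine ⟨_, ?_, Or.inr ⟨c, r, k1.symm, rfl, rfl⟩⟩
        have := Set.ncard_le_card (side T c r)
        simp only [Nat.card_eq_fintype_card, Fintype.card_fin] at this
        omega
      · rcases side_cover le_rfl (hT.connected.preconnected r (L x)) with h | ⟨c, k1, k2⟩
        · exact Or.inl h
        · exact Or.inr ⟨_, (h2 _).mpr ⟨c, k1, trivial, rfl⟩, k2⟩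
    · obtain ⟨ch, h1, h2⟩ := hcard v (fun c => c ≠ p)
      refine ⟨_, ch, hP v, h1, fun S' hS' => ?_, fun x hx => ?_⟩
      · obtain ⟨c, k1, k2, rfl⟩ := (h2 S').mp hS'
        refine ⟨_, ?_, Or.inr ⟨c, v, k1.symm, rfl, rfl⟩⟩
        exact Set.ncard_lt_ncard ⟨side_sub hT.isAcyclic k1 k2,
          fun h => not_mem_side hT.isAcyclic k1.symm (h (SimpleGraph.Reachable.refl _))⟩
          (Set.toFinite _)
      · rcases side_cover (SimpleGraph.deleteEdges_le _) hx with h | ⟨c, k1, k2⟩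
        · exact Or.inl h
        · rw [SimpleGraph.deleteEdges_adj] at k1
          refine Or.inr ⟨_, (h2 _).mpr ⟨c, k1.1, fun e => k1.2 ?_, rfl⟩, k2⟩
          rw [e]; rfl

open Classical in
theorem tree_mu (s T : ℕ) : ∃ c : ℕ, ∀ (V : Type) [Fintype V] (G : SimpleGraph V)
    (𝒢 : Finset V → Prop), 𝒢 ∅ → (∀ S S', 𝒢 S → S' ⊆ S → 𝒢 S') →
    (∀ S S', 𝒢 S → 𝒢 S' → NoBic G T S S') →
    (∀ d (A X : Set V), Cov G A X → Mu 𝒢 X d → ∀ J I, 𝒢 J → 𝒢 I → (∀ v ∈ J, v ∈ A ∧ v ∉ X) →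
      (∀ v ∈ I, v ∉ A ∧ v ∉ X) → ∃ K, 𝒢 K ∧ K ⊆ J ∪ I ∧ J.card + I.card ≤ K.card + 2 * d) →
    SimFam G s →
    ∃ (n : ℕ) (T : SimpleGraph (Fin n)) (bag : Fin n → Set V), T.IsTree ∧ (∀ v, ∃ w, v ∈ bag w) ∧
      (∀ v v', G.Adj v v' → ∃ w, v ∈ bag w ∧ v' ∈ bag w) ∧
      (∀ v, (T.induce {w | v ∈ bag w}).Connected) ∧ ∀ w, Mu 𝒢 (bag w) c := by
  obtain ⟨d, hd⟩ := cut_cover s T
  refine ⟨17 * d + 4, fun V _ G 𝒢 h0 hdown hB hcomb ⟨Fam, n₀, f0, f1, f2⟩ => ?_⟩
  obtain ⟨R, _, h⟩ := exists_pd G 𝒢 d hdown (hcomb d) (fun I hI => by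
      obtain ⟨A, n, k1, k2, k3⟩ := exists_balanced Fam n₀ f0 f2 (4 * d + 1) (by omega) I hI
      obtain ⟨X, k4, k5⟩ := hd V G 𝒢 h0 hB A (f1 A n k1)
      exact ⟨A, X, k4, k5, k2, k3⟩) _ Set.univ ∅ (Set.empty_subset _) le_rfl
    (fun S _ hS => by
      have : S = ∅ := by simpa using hS
      simp [this])
  exact h.toTree

end Pool.Agent.H459Z
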