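import Mathlib

/-! Sim-width, tree-independence number and induced stars. -/

set_option autoImplicit false

namespace Pool.Agent.H459Z.Star

variable {V : Type}

/-- `G` has no induced subgraph isomorphic to the star `K_{1,d}`. -/
def StarFree (G : SimpleGraph V) (d : ℕ) : Prop :=
  IsEmpty (completeBipartiteGraph (Fin 1) (Fin d) ↪g G)

/-- `G` has sim-width at most `k`: either it has at most one vertex, or there is a tree of maximum
degree at most three with a bijection `L` from the vertices of `G` to its leaves such that, for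
every tree edge `u w`, each induced matching `a i b i` of `G` with all `a i` on the side of `u` and
all `b i` on the other side has at most `k` edges. -/
def SimWidthLE (G : SimpleGraph V) (k : ℕ) : Prop :=
  Subsingleton V ∨ ∃ (m : ℕ) (T : SimpleGraph (Fin m)) (L : V → Fin m),
    T.IsTree ∧ (∀ x, (T.neighborSet x).ncard ≤ 3) ∧ Function.Injective L ∧
    (∀ x, (T.neighborSet x).ncard = 1 ↔ x ∈ Set.range L) ∧
    ∀ u w : Fin m, T.Adj u w → ∀ (t : ℕ) (a b : Fin t → V),
      (∀ i, (T.deleteEdges {s(u, w)}).Reachable u (L (a i))) →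
      (∀ i, ¬ (T.deleteEdges {s(u, w)}).Reachable u (L (b i))) →
      (∀ i, G.Adj (a i) (b i)) →
      (∀ i j, i ≠ j → ¬ G.Adj (a i) (a j) ∧ ¬ G.Adj (b i) (b j) ∧ ¬ G.Adj (a i) (b j)) →
      t ≤ k

/-- `G` has tree-independence number at most `c`: it has a tree decomposition in which every
independent set contained in a bag has at most `c` vertices. -/
def TreeAlphaLE (G : SimpleGraph V) (c : ℕ) : Prop :=
  ∃ (n : ℕ) (T : SimpleGraph (Fin n)) (bag : Fin n → Set V), T.IsTree ∧ (∀ v, ∃ w, v ∈ bag w) ∧
    (∀ v v', G.Adj v v' → ∃ w, v ∈ bag w ∧ v' ∈ bag w) ∧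
    (∀ v, (T.induce {w | v ∈ bag w}).Connected) ∧
    ∀ w, ∀ S : Finset V, ↑S ⊆ bag w → G.IsIndepSet (S : Set V) → S.card ≤ c

end Pool.Agent.H459Z.Star
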