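import Pool.Agent.H459Z.TD.Good
import Pool.Agent.H459Z.TD.StarDefs

set_option autoImplicit false

namespace Pool.Agent.H459Z.Star

theorem star_main (d k : ℕ) (hd : 2 ≤ d) : ∃ c : ℕ, ∀ (V : Type) [Fintype V] (G : SimpleGraph V),
    StarFree G d → SimWidthLE G k → TreeAlphaLE G c := by
  obtain ⟨c, hc⟩ := tree_alpha k d
  refine ⟨c, fun V _ G hS hW => hc V G ?_ ?_⟩
  · rcases hW with h | ⟨m, T, L, h1, h2, h3, _, h4⟩
    · refine ⟨fun S _ => S = Set.univ, 0, rfl, fun S _ e => e ▸ sim_univ G k, fun S _ _ =>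
        ⟨Set.univ, ∅, Set.subsingleton_of_subsingleton, by simp, by simp,
          fun x _ => Or.inl trivial⟩⟩
    · exact Dec.simFam ⟨m, T, L, h1, h2, h3,
        fun u w huw t a b _ _ k1 k2 k3 k4 => h4 u w huw t a b k1 k2 k3 k4⟩
  · rintro ⟨f, f1, f2⟩
    let g : Fin 1 ⊕ Fin d → Fin d ⊕ Fin d := Sum.map (Fin.castLE (by omega)) id
    have hg : Function.Injective g :=
      Sum.map_injective.mpr ⟨Fin.castLE_injective _, Function.injective_id⟩
    refine hS.elim ⟨⟨f ∘ g, f1.comp hg⟩, ?_⟩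
    rintro (a | a) (b | b) <;> simp [f2, g]

end Pool.Agent.H459Z.Star
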